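import Pool.Agent.LKT.Stmts

/-!
# LKT, row GNP: generic points
-/

set_option autoImplicit false

namespace Pool.Agent.LKT.H51

open Pool.Agent.LKT Pool.Agent.LCK

/-- The bracket of a tuple of indices. -/
noncomputable def M (x : Fin 8 → E3) (e : Fin 4 → Fin 8) : ℝ :=
  Matrix.det (Matrix.of fun r => hom x (e r))

theorem D_eq (x : Fin 8 → E3) (a b c d : Fin 8) : D x a b c d = M x ![a, b, c, d] := by
  unfold D d4 M
  congr 1
  ext i j
  fin_cases i <;> rfl

theorem M_perm (x : Fin 8 → E3) (e : Fin 4 → Fin 8) (σ : Equiv.Perm (Fin 4)) :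
    M x (e ∘ σ) = ((Equiv.Perm.sign σ : ℤ) : ℝ) * M x e := by
  have h := Matrix.det_permute σ (Matrix.of fun r => hom x (e r))
  exact h

/-- The row of the `k`-th point if its vector is `y`. -/
noncomputable def rw' (k : Fin 8) (y : E3) : Fin 4 → ℝ :=
  ![if k = 0 ∨ k = 7 then 0 else 1, y 0, y 1, y 2]

theorem hom_ne (x : Fin 8 → E3) (k m : Fin 8) (y : E3) (h : m ≠ k) :
    hom (Function.update x k y) m = hom x m := by
  unfold hom
  rw [Function.update_of_ne h]

theorem hom_self (x : Fin 8 → E3) (k : Fin 8) (y : E3) :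
    hom (Function.update x k y) k = rw' k y := by
  unfold hom rw'
  rw [Function.update_self]

theorem M_not (x : Fin 8 → E3) (e : Fin 4 → Fin 8) (k : Fin 8) (y : E3)
    (h : ∀ r, e r ≠ k) : M (Function.update x k y) e = M x e := by
  unfold M
  congr 1
  ext r j
  show hom (Function.update x k y) (e r) j = hom x (e r) j
  rw [hom_ne x k _ y (h r)]

theorem M_upd (x : Fin 8 → E3) (e : Fin 4 → Fin 8) (he : Function.Injective e) (k : Fin 8)
    (y : E3) (r₀ : Fin 4) (h : e r₀ = k) (b c : Fin 8) (α β : ℝ)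
    (hy : rw' k y = α • hom x b + β • hom x c) :
    M (Function.update x k y) e =
      α * M x (Function.update e r₀ b) + β * M x (Function.update e r₀ c) := by
  have h1 : ∀ b : Fin 8, (Matrix.of fun r => hom x (e r)).updateRow r₀ (hom x b) =
      Matrix.of fun r => hom x (Function.update e r₀ b r) := by
    intro b
    ext r j
    by_cases hr : r = r₀
    · subst hr
      rw [Matrix.updateRow_self]
      show _ = hom x (Function.update e r b r) j
      rw [Function.update_self]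
    · rw [Matrix.updateRow_ne hr]
      show _ = hom x (Function.update e r₀ b r) j
      rw [Function.update_of_ne hr]
      rfl
  have h2 : (Matrix.of fun r => hom (Function.update x k y) (e r)) =
      (Matrix.of fun r => hom x (e r)).updateRow r₀ (α • hom x b + β • hom x c) := by
    ext r j
    by_cases hr : r = r₀
    · subst hr
      rw [Matrix.updateRow_self, ← hy]
      show hom (Function.update x k y) (e r) j = _
      rw [h, hom_self]
    · rw [Matrix.updateRow_ne hr]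
      show hom (Function.update x k y) (e r) j = hom x (e r) j
      rw [hom_ne]
      intro h'
      exact hr (he (h'.trans h.symm))
  unfold M
  rw [h2, Matrix.det_updateRow_add, Matrix.det_updateRow_smul, Matrix.det_updateRow_smul, h1, h1]

theorem M_zero (x : Fin 8 → E3) (e : Fin 4 → Fin 8) (r₀ r : Fin 4) (hr : r ≠ r₀) :
    M x (Function.update e r₀ (e r)) = 0 := by
  refine Matrix.det_zero_of_row_eq hr ?_
  show hom x (Function.update e r₀ (e r) r) = hom x (Function.update e r₀ (e r) r₀)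
  rw [Function.update_of_ne hr, Function.update_self]

theorem upd_inj (e : Fin 4 → Fin 8) (he : Function.Injective e) (r₀ : Fin 4) (b : Fin 8)
    (hb : ∀ r, r ≠ r₀ → e r ≠ b) : Function.Injective (Function.update e r₀ b) := by
  intro r r' h
  by_cases hr : r = r₀ <;> by_cases hr' : r' = r₀
  · rw [hr, hr']
  · rw [hr, Function.update_self, Function.update_of_ne hr'] at h
    exact absurd h.symm (hb r' hr')
  · rw [hr', Function.update_self, Function.update_of_ne hr] at h
    exact absurd h (hb r hr)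
  · rw [Function.update_of_ne hr, Function.update_of_ne hr'] at h
    exact he h

/-- Finite points. -/
abbrev fi (b : Fin 8) : Prop := b ≠ 0 ∧ b ≠ 7

theorem fi_le (b : Fin 8) (h : fi b) : 1 ≤ b ∧ b ≤ 6 := by
  revert h
  revert b
  decide

section
variable (x : Fin 8 → E3) (h1 : ∀ a b c d : Fin 8, a < b → b < c → c < d → D x a b c d ≠ 0)
  (h2 : ∀ a b p q r : Fin 8, 1 ≤ a → a < b → b ≤ 6 → p < q → q < r →
    a ≠ p → a ≠ q → a ≠ r → b ≠ p → b ≠ q → b ≠ r → D x a p q r - D x b p q r ≠ 0)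

include h1 in
theorem M_ne (e : Fin 4 → Fin 8) (he : Function.Injective e) : M x e ≠ 0 := by
  have hs : StrictMono (e ∘ Tuple.sort e) :=
    (Tuple.monotone_sort e).strictMono_of_injective (he.comp (Tuple.sort e).injective)
  have h := h1 (e (Tuple.sort e 0)) (e (Tuple.sort e 1)) (e (Tuple.sort e 2))
    (e (Tuple.sort e 3)) (hs (by decide)) (hs (by decide)) (hs (by decide))
  have h3 : ![e (Tuple.sort e 0), e (Tuple.sort e 1), e (Tuple.sort e 2), e (Tuple.sort e 3)] =
      e ∘ Tuple.sort e := by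
    funext i
    fin_cases i <;> rfl
  rw [D_eq, h3, M_perm] at h
  exact right_ne_zero_of_mul h

include h2 in
theorem M_diff (e : Fin 4 → Fin 8) (he : Function.Injective e) (r₀ : Fin 4) (b c : Fin 8)
    (hb : fi b) (hc : fi c) (hbc : b ≠ c) (hbe : ∀ r, r ≠ r₀ → e r ≠ b)
    (hce : ∀ r, r ≠ r₀ → e r ≠ c) :
    M x (Function.update e r₀ b) - M x (Function.update e r₀ c) ≠ 0 := by
  set g : Fin 4 → ℕ := fun r => if r = r₀ then 0 else (e r : ℕ) + 1 with hg
  have hg0 : g r₀ = 0 := by simp [hg]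
  have hg1 : ∀ r, r ≠ r₀ → g r = (e r : ℕ) + 1 := fun r hr => by simp [hg, hr]
  have hginj : Function.Injective g := by
    intro r r' h
    by_cases hr : r = r₀ <;> by_cases hr' : r' = r₀
    · rw [hr, hr']
    · rw [hr, hg0, hg1 r' hr'] at h
      omega
    · rw [hr', hg0, hg1 r hr] at h
      omega
    · rw [hg1 r hr, hg1 r' hr'] at h
      exact he (Fin.ext (by omega))
  set σ := Tuple.sort g with hσ
  have hs : StrictMono (g ∘ σ) :=
    (Tuple.monotone_sort g).strictMono_of_injective (hginj.comp σ.injective)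
  have hσ0 : σ 0 = r₀ := by
    by_contra h
    have h3 : (0 : Fin 4) < σ.symm r₀ := by
      rw [Fin.pos_iff_ne_zero]
      intro h4
      rw [← h4] at h
      exact h (σ.apply_symm_apply r₀)
    have h5 := hs h3
    simp only [Function.comp_apply, Equiv.apply_symm_apply, hg0] at h5
    omega
  have hσn : ∀ r : Fin 4, r ≠ 0 → σ r ≠ r₀ := fun r hr h => hr (σ.injective (h.trans hσ0.symm))
  have hlt : ∀ r r' : Fin 4, r ≠ 0 → r < r' → e (σ r) < e (σ r') := by
    intro r r' hr hrr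
    have h5 := hs hrr
    have hr' : r' ≠ 0 := by
      rintro rfl
      exact absurd hrr (Fin.not_lt_zero r)
    simp only [Function.comp_apply] at h5
    rw [hg1 _ (hσn r hr), hg1 _ (hσn r' hr')] at h5
    rw [Fin.lt_def]
    omega
  have hform : ∀ b : Fin 8, D x b (e (σ 1)) (e (σ 2)) (e (σ 3)) =
      ((Equiv.Perm.sign σ : ℤ) : ℝ) * M x (Function.update e r₀ b) := by
    intro b
    rw [← M_perm, D_eq]
    congr 1
    funext i
    fin_cases i
    · show b = Function.update e r₀ b (σ 0)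
      rw [hσ0, Function.update_self]
    · show e (σ 1) = Function.update e r₀ b (σ 1)
      rw [Function.update_of_ne (hσn 1 (by decide))]
    · show e (σ 2) = Function.update e r₀ b (σ 2)
      rw [Function.update_of_ne (hσn 2 (by decide))]
    · show e (σ 3) = Function.update e r₀ b (σ 3)
      rw [Function.update_of_ne (hσn 3 (by decide))]
  have key : ∀ b c : Fin 8, fi b → fi c → b < c → (∀ r, r ≠ r₀ → e r ≠ b) →
      (∀ r, r ≠ r₀ → e r ≠ c) →
      M x (Function.update e r₀ b) - M x (Function.update e r₀ c) ≠ 0 := by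
    intro b c hb hc hbc hbe hce
    have h := h2 b c (e (σ 1)) (e (σ 2)) (e (σ 3)) (fi_le b hb).1 hbc (fi_le c hc).2
      (hlt 1 2 (by decide) (by decide)) (hlt 2 3 (by decide) (by decide))
      (hbe _ (hσn 1 (by decide))).symm (hbe _ (hσn 2 (by decide))).symm
      (hbe _ (hσn 3 (by decide))).symm (hce _ (hσn 1 (by decide))).symm
      (hce _ (hσn 2 (by decide))).symm (hce _ (hσn 3 (by decide))).symm
    rw [hform, hform, ← mul_sub] at h
    exact right_ne_zero_of_mul h
  rcases lt_or_gt_of_ne hbc with h | h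
  · exact key b c hb hc h hbe hce
  · have h3 := key c b hc hb h hce hbe
    intro h4
    apply h3
    linarith

end

/-- The indices of the table entry `i`. -/
def ee (i : Fin 59) : Fin 4 → Fin 8 :=
  ![(tb i).1, (tb i).2.1, (tb i).2.2.1, (tb i).2.2.2.1]

theorem ee_lt : ∀ i : Fin 59, (tb i).1 < (tb i).2.1 ∧ (tb i).2.1 < (tb i).2.2.1 ∧
    (tb i).2.2.1 < (tb i).2.2.2.1 ∧ (tb i).2.2.2.2 ≠ 0 := by
  decide +kernel

theorem ee_inj : ∀ i : Fin 59, ∀ r r' : Fin 4, ee i r = ee i r' → r = r' := by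
  decide +kernel

theorem ee_ne : ∀ i j : Fin 59, i ≠ j → ∃ r : Fin 4, ∀ r' : Fin 4, ee j r' ≠ ee i r := by
  decide +kernel

theorem ee_a : ∀ i : Fin 59, ∀ r₀ : Fin 4, ∃ r, r ≠ r₀ ∧ fi (ee i r) := by
  decide +kernel

theorem ee_b : ∀ i : Fin 59, ∀ r₀ : Fin 4, ¬ fi (ee i r₀) →
    ∃ r r', r ≠ r₀ ∧ r' ≠ r₀ ∧ r ≠ r' ∧ fi (ee i r) ∧ fi (ee i r') := by
  decide +kernel

theorem ee_c : ∀ i : Fin 59, ∀ r₀ r₁ : Fin 4, r₁ ≠ r₀ → (¬ fi (ee i r₀) ∨ ¬ fi (ee i r₁)) →
    ∃ r, r ≠ r₀ ∧ r ≠ r₁ ∧ fi (ee i r) := by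
  decide +kernel

theorem rw_same (x : Fin 8 → E3) (k b : Fin 8) (h : fi b ↔ fi k) :
    rw' k (x b) = (1 : ℝ) • hom x b + (0 : ℝ) • hom x b := by
  have h' : (k = 0 ∨ k = 7) ↔ (b = 0 ∨ b = 7) := by
    unfold fi at h
    tauto
  rw [one_smul, zero_smul, add_zero]
  unfold rw' hom
  simp only [h']

theorem rw_add (x : Fin 8 → E3) (k b c : Fin 8) (hk : fi k) (hb : ¬ fi b) (hc : fi c) :
    rw' k (x c + x b) = (1 : ℝ) • hom x c + (1 : ℝ) • hom x b := by
  have h1 : ¬ (k = 0 ∨ k = 7) := by unfold fi at hk; tauto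
  have h2 : (b = 0 ∨ b = 7) := by unfold fi at hb; tauto
  have h3 : ¬ (c = 0 ∨ c = 7) := by unfold fi at hc; tauto
  rw [one_smul, one_smul]
  unfold rw' hom
  rw [if_neg h1, if_pos h2, if_neg h3]
  funext i
  fin_cases i <;> simp

theorem rw_sub (x : Fin 8 → E3) (k b c : Fin 8) (hk : ¬ fi k) (hb : fi b) (hc : fi c) :
    rw' k (x b - x c) = (1 : ℝ) • hom x b + (-1 : ℝ) • hom x c := by
  have h1 : (k = 0 ∨ k = 7) := by unfold fi at hk; tauto
  have h2 : ¬ (b = 0 ∨ b = 7) := by unfold fi at hb; tauto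
  have h3 : ¬ (c = 0 ∨ c = 7) := by unfold fi at hc; tauto
  rw [one_smul, neg_one_smul]
  unfold rw' hom
  rw [if_pos h1, if_neg h2, if_neg h3]
  funext i
  fin_cases i <;> simp [sub_eq_add_neg]

theorem gnp (_ : CrmStmt) : GnpStmt := by
  intro x h1 h2 k i j hij
  have hinj : ∀ i : Fin 59, Function.Injective (ee i) := fun i r r' h => ee_inj i r r' h
  have hF : ∀ (i : Fin 59) (x : Fin 8 → E3), F i x = ((tb i).2.2.2.2 : ℝ) * M x (ee i) := by
    intro i x
    unfold F
    rw [D_eq]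
    rfl
  have hsg : ∀ i : Fin 59, ((tb i).2.2.2.2 : ℝ) ≠ 0 := fun i => by
    exact_mod_cast (ee_lt i).2.2.2
  have hMne := M_ne x h1
  unfold NP
  simp only [hF]
  by_cases hk : ∃ r₀, ee i r₀ = k
  swap
  · left
    intro y
    rw [M_not x (ee i) k y (fun r hr => hk ⟨r, hr⟩)]
    exact mul_ne_zero (hsg i) (hMne _ (hinj i))
  obtain ⟨r₀, hr₀⟩ := hk
  right
  by_cases hkj : ∃ r₁, ee j r₁ = k
  swap
  · suffices h : ∃ y, M (Function.update x k y) (ee i) = 0 by
      obtain ⟨y, hy⟩ := h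
      refine ⟨y, by rw [hy, mul_zero], ?_⟩
      rw [M_not x (ee j) k y (fun r hr => hkj ⟨r, hr⟩)]
      exact mul_ne_zero (hsg j) (hMne _ (hinj j))
    by_cases hf : fi k
    · obtain ⟨r, hr, hrf⟩ := ee_a i r₀
      refine ⟨x (ee i r), ?_⟩
      rw [M_upd x (ee i) (hinj i) k _ r₀ hr₀ _ _ _ _
        (rw_same x k (ee i r) ⟨fun _ => hf, fun _ => hrf⟩), M_zero x (ee i) r₀ r hr]
      ring
    · obtain ⟨r, r', hr, hr', -, hrf, hrf'⟩ := ee_b i r₀ (hr₀ ▸ hf)
      refine ⟨x (ee i r) - x (ee i r'), ?_⟩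
      rw [M_upd x (ee i) (hinj i) k _ r₀ hr₀ _ _ _ _
        (rw_sub x k (ee i r) (ee i r') hf hrf hrf'), M_zero x (ee i) r₀ r hr,
        M_zero x (ee i) r₀ r' hr']
      ring
  obtain ⟨r₁, hr₁⟩ := hkj
  -- `k` is in both sets
  have hin : ∀ r, (∀ r', ee j r' ≠ ee i r) → r ≠ r₀ := by
    rintro r hr rfl
    exact hr r₁ (hr₁.trans hr₀.symm)
  have hnew : ∀ b : Fin 8, (∀ r', ee j r' ≠ b) → M x (Function.update (ee j) r₁ b) ≠ 0 :=
    fun b hb => hMne _ (upd_inj (ee j) (hinj j) r₁ b fun r _ => hb r)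
  have hz : ∀ c : Fin 8, c ≠ k → (∃ r', ee j r' = c) → M x (Function.update (ee j) r₁ c) = 0 := by
    rintro c hck ⟨r', rfl⟩
    refine M_zero x (ee j) r₁ r' ?_
    rintro rfl
    exact hck hr₁
  -- a point of the same type which is in `i` and not in `j`
  have hsame : ∀ r, (∀ r', ee j r' ≠ ee i r) → (fi (ee i r) ↔ fi k) →
      ∃ y, ((tb i).2.2.2.2 : ℝ) * M (Function.update x k y) (ee i) = 0 ∧
        ((tb j).2.2.2.2 : ℝ) * M (Function.update x k y) (ee j) ≠ 0 := by
    intro r hr hf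
    refine ⟨x (ee i r), ?_, ?_⟩
    · rw [M_upd x (ee i) (hinj i) k _ r₀ hr₀ _ _ _ _ (rw_same x k (ee i r) hf),
        M_zero x (ee i) r₀ r (hin r hr)]
      ring
    · rw [M_upd x (ee j) (hinj j) k _ r₁ hr₁ _ _ _ _ (rw_same x k (ee i r) hf)]
      refine mul_ne_zero (hsg j) ?_
      rw [one_mul, zero_mul, add_zero]
      exact hnew _ hr
  obtain ⟨r, hr⟩ := ee_ne i j hij
  have hrr₀ := hin r hr
  by_cases hf : fi k
  · by_cases hrf : fi (ee i r)
    · exact hsame r hr ⟨fun _ => hf, fun _ => hrf⟩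
    · obtain ⟨s, hs0, hs1, hsf⟩ := ee_c i r₀ r hrr₀ (Or.inr hrf)
      by_cases hsj : ∃ r', ee j r' = ee i s
      · refine ⟨x (ee i s) + x (ee i r), ?_, ?_⟩
        · rw [M_upd x (ee i) (hinj i) k _ r₀ hr₀ _ _ _ _
            (rw_add x k (ee i r) (ee i s) hf hrf hsf), M_zero x (ee i) r₀ r hrr₀,
            M_zero x (ee i) r₀ s hs0]
          ring
        · rw [M_upd x (ee j) (hinj j) k _ r₁ hr₁ _ _ _ _
            (rw_add x k (ee i r) (ee i s) hf hrf hsf), hz (ee i s) (fun h => hs0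
              (hinj i (h.trans hr₀.symm))) hsj]
          refine mul_ne_zero (hsg j) ?_
          rw [mul_zero, zero_add, one_mul]
          exact hnew _ hr
      · push Not at hsj
        exact hsame s hsj ⟨fun _ => hf, fun _ => hsf⟩
  · by_cases hrf : fi (ee i r)
    · obtain ⟨s, hs0, hs1, hsf⟩ := ee_c i r₀ r hrr₀ (Or.inl (hr₀ ▸ hf))
      refine ⟨x (ee i r) - x (ee i s), ?_, ?_⟩
      · rw [M_upd x (ee i) (hinj i) k _ r₀ hr₀ _ _ _ _
          (rw_sub x k (ee i r) (ee i s) hf hrf hsf), M_zero x (ee i) r₀ r hrr₀,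
          M_zero x (ee i) r₀ s hs0]
        ring
      · rw [M_upd x (ee j) (hinj j) k _ r₁ hr₁ _ _ _ _
          (rw_sub x k (ee i r) (ee i s) hf hrf hsf)]
        refine mul_ne_zero (hsg j) ?_
        by_cases hsj : ∃ r', ee j r' = ee i s
        · rw [hz (ee i s) (fun h => hs0 (hinj i (h.trans hr₀.symm))) hsj, mul_zero, add_zero,
            one_mul]
          exact hnew _ hr
        · push Not at hsj
          have h3 := M_diff x h2 (ee j) (hinj j) r₁ (ee i r) (ee i s) hrf hsf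
            (fun h => hs1 (hinj i h).symm) (fun r' _ => hr r') (fun r' _ => hsj r')
          intro h4
          apply h3
          linarith
    · exact hsame r hr ⟨fun h => absurd h hrf, fun h => absurd h hf⟩

end Pool.Agent.LKT.H51
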